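import Pool.Agent.X150.SIG

/-!
Sphere-of-influence metrics embeddable in l_1: every finite connected simple graph with at least
two vertices has a SIG-metric which is isometrically embeddable into some `(ℝ^m, ℓ_1)`.
-/

set_option linter.unusedSectionVars false

namespace Pool.Agent.Results.MP_d14146_co.Main

/-- The radius of influence of a vertex `i`: the minimum of `d i j` over the vertices `j ≠ i`
(written as an infimum over the finite nonempty set of such `j`). -/
noncomputable def radius {V : Type*} (d : V → V → ℝ) (i : V) : ℝ :=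
  ⨅ j : {j : V // j ≠ i}, d i j.1

/-- `d` is a metric on `V` and it is a SIG-metric for the graph `G`. -/
structure IsSIGMetric {V : Type*} (G : SimpleGraph V) (d : V → V → ℝ) : Prop where
  nonneg : ∀ i j, 0 ≤ d i j
  eq_zero_iff : ∀ i j, d i j = 0 ↔ i = j
  symm : ∀ i j, d i j = d j i
  triangle : ∀ i j k, d i k ≤ d i j + d j k
  near : ∀ i j, G.Adj i j → d i j < radius d i + radius d j
  far : ∀ i j, i ≠ j → ¬ G.Adj i j → radius d i + radius d j ≤ d i j

open Pool.Agent.X150.SIG Pool.Agent.X150.SIG.TreeData

section

variable {V : Type*} [Fintype V] [DecidableEq V] {G : SimpleGraph V}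

theorem radius_le {d : V → V → ℝ} {i j : V} (h : j ≠ i) : radius d i ≤ d i j :=
  ciInf_le (Set.finite_range _).bddBelow (⟨j, h⟩ : {j : V // j ≠ i})

theorem exists_radius_eq [Nontrivial V] (d : V → V → ℝ) (i : V) :
    ∃ j, j ≠ i ∧ d i j = radius d i := by
  obtain ⟨j0, hj0⟩ := exists_ne i
  haveI : Nonempty {j : V // j ≠ i} := ⟨⟨j0, hj0⟩⟩
  obtain ⟨j, hj⟩ := exists_eq_ciInf_of_finite (f := fun j : {j : V // j ≠ i} => d i j.1)
  exact ⟨j.1, j.2, hj⟩

theorem near_or (T : TreeData G) {x y : V} (h : G.Adj x y) :
    (x ≠ T.root ∧ T.p x = y) ∨ (y ≠ T.root ∧ T.p y = x) ∨ T.N x y := by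
  by_cases h1 : T.p x = y
  · left
    refine ⟨?_, h1⟩
    rintro rfl
    rw [T.proot] at h1
    exact h.ne h1
  · by_cases h2 : T.p y = x
    · right; left
      refine ⟨?_, h2⟩
      rintro rfl
      rw [T.proot] at h2
      exact h.ne h2.symm
    · right; right
      exact ⟨h, h1, h2⟩

/-- for `x ≠ root`, every other point is at distance at least `R x` -/
theorem R_le_d (T : TreeData G) {x y : V} (hx : x ≠ T.root) (hxy : x ≠ y) : T.R x ≤ T.d x y := by
  by_cases hadj : G.Adj x y
  · rcases near_or T hadj with h | h | h
    · have := T.d_parent h.1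
      rw [h.2, T.d_symm] at this
      rw [this]
    · have := T.d_parent h.1
      rw [h.2] at this
      rw [this]
      have h3 := T.plt y h.1
      rw [h.2] at h3
      exact T.R_mono h3.le
    · rcases lt_or_gt_of_ne (fun h' => hxy (T.inj h') : T.rk x ≠ T.rk y) with h3 | h3
      · exact (T.R_mono h3.le).trans (T.d_near_ge h h3)
      · rw [T.d_symm]; exact T.d_near_ge (T.N_symm h) h3
  · by_cases h1 : T.Anc x y
    · obtain ⟨c, hc1, hc2, hc3⟩ := T.exists_child h1 hxy
      have hcy : c ≠ y := by
        rintro rfl
        apply hadj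
        rw [← hc1]
        exact (T.padj c hc2).symm
      have h2 := T.d_anc_lower h1 hc1 hc2 hc3 hcy
      have h3 : T.R x ≤ T.R y := T.R_mono (T.anc_rk_le h1)
      have h4 := T.R_pos c
      linarith
    · by_cases h2 : T.Anc y x
      · obtain ⟨c, hc1, hc2, hc3⟩ := T.exists_child h2 (Ne.symm hxy)
        have hcx : c ≠ x := by
          rintro rfl
          apply hadj
          rw [← hc1]
          exact T.padj c hc2
        have h3 := T.d_anc_lower h2 hc1 hc2 hc3 hcx
        have h4 := T.R_pos c
        rw [T.d_symm]
        linarith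
      · have h3 := T.d_far h1 h2 hadj
        have h4 := T.R_pos y
        linarith

theorem d_pos (T : TreeData G) {x y : V} (hxy : x ≠ y) : 0 < T.d x y := by
  by_cases hx : x = T.root
  · have hy : y ≠ T.root := by rintro rfl; exact hxy hx
    rw [T.d_symm]
    exact lt_of_lt_of_le (T.R_pos y) (R_le_d T hy (Ne.symm hxy))
  · exact lt_of_lt_of_le (T.R_pos x) (R_le_d T hx hxy)

theorem isSIGMetric [Nontrivial V] (T : TreeData G) : IsSIGMetric G T.d := by
  have hrad_ge : ∀ x, x ≠ T.root → T.R x ≤ radius T.d x := by
    intro x hx
    obtain ⟨j, hj, hjr⟩ := exists_radius_eq T.d x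
    rw [← hjr]
    exact R_le_d T hx (Ne.symm hj)
  have hrad_pos : ∀ x, 0 < radius T.d x := by
    intro x
    obtain ⟨j, hj, hjr⟩ := exists_radius_eq T.d x
    rw [← hjr]
    exact d_pos T (Ne.symm hj)
  have hp_ne : ∀ x, x ≠ T.root → T.p x ≠ x := fun x hx h => by
    have := T.plt x hx
    rw [h] at this
    exact lt_irrefl _ this
  have hrad_le : ∀ x, x ≠ T.root → radius T.d x ≤ T.R x := by
    intro x hx
    have h1 := radius_le (d := T.d) (hp_ne x hx)
    rw [T.d_symm, T.d_parent hx] at h1
    exact h1
  have hrad_le_child : ∀ c, c ≠ T.root → radius T.d (T.p c) ≤ T.R c := by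
    intro c hc
    have h1 := radius_le (d := T.d) (hp_ne c hc).symm
    rw [T.d_parent hc] at h1
    exact h1
  refine ⟨?_, ?_, T.d_symm, T.d_triangle, ?_, ?_⟩
  · intro i j
    rw [← T.sum_abs]
    exact Finset.sum_nonneg (fun c _ => abs_nonneg _)
  · intro i j
    constructor
    · intro h
      by_contra hne
      exact absurd h (d_pos T hne).ne'
    · rintro rfl
      exact T.d_self i
  · intro i j hij
    rcases near_or T hij with h | h | h
    · have h1 := T.d_parent h.1
      rw [h.2, T.d_symm] at h1
      rw [h1]
      have := hrad_ge i h.1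
      have := hrad_pos j
      linarith
    · have h1 := T.d_parent h.1
      rw [h.2] at h1
      rw [h1]
      have := hrad_ge j h.1
      have := hrad_pos i
      linarith
    · -- a non-tree edge never meets the root
      have hroot : ∀ {a b : V}, T.N a b → a ≠ T.root := by
        intro a b hab ha
        subst ha
        have hb : b ≠ T.root := hab.1.ne.symm
        have h1 : ∀ m v, T.rk v = m → T.Anc T.root v := by
          intro m
          induction m using Nat.strong_induction_on with
          | _ m ih =>
            intro v hv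
            by_cases hvr : v = T.root
            · rw [hvr]; exact T.anc_refl _
            · exact T.anc_trans (ih _ (hv ▸ T.plt v hvr) (T.p v) rfl) (T.anc_p v)
        exact T.N_not_anc hab (h1 _ b rfl)
      have hi := hrad_ge i (hroot h)
      have hj := hrad_ge j (hroot (T.N_symm h))
      rcases lt_or_gt_of_ne (fun h' => hij.ne (T.inj h') : T.rk i ≠ T.rk j) with h3 | h3
      · have := T.d_near_lt h h3
        linarith
      · have := T.d_near_lt (T.N_symm h) h3
        rw [T.d_symm]
        linarith
  · intro i j hij hadj
    by_cases h1 : T.Anc i j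
    · obtain ⟨c, hc1, hc2, hc3⟩ := T.exists_child h1 hij
      have hcy : c ≠ j := by
        rintro rfl
        apply hadj
        rw [← hc1]
        exact (T.padj c hc2).symm
      have h2 := T.d_anc_lower h1 hc1 hc2 hc3 hcy
      have h3 := hrad_le_child c hc2
      rw [hc1] at h3
      have h4 := hrad_le j (T.ne_root_of_anc h1 hij)
      linarith
    · by_cases h2 : T.Anc j i
      · obtain ⟨c, hc1, hc2, hc3⟩ := T.exists_child h2 (Ne.symm hij)
        have hcx : c ≠ i := by
          rintro rfl
          apply hadj
          rw [← hc1]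
          exact T.padj c hc2
        have h5 := T.d_anc_lower h2 hc1 hc2 hc3 hcx
        have h3 := hrad_le_child c hc2
        rw [hc1] at h3
        have h4 := hrad_le i (T.ne_root_of_anc h2 (Ne.symm hij))
        rw [T.d_symm]
        linarith
      · have h3 := T.d_far h1 h2 hadj
        have hroot_anc : ∀ m v, T.rk v = m → T.Anc T.root v := by
          intro m
          induction m using Nat.strong_induction_on with
          | _ m ih =>
            intro v hv
            by_cases hvr : v = T.root
            · rw [hvr]; exact T.anc_refl _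
            · exact T.anc_trans (ih _ (hv ▸ T.plt v hvr) (T.p v) rfl) (T.anc_p v)
        have hi : i ≠ T.root := by
          rintro rfl
          exact h1 (hroot_anc _ j rfl)
        have hj : j ≠ T.root := by
          rintro rfl
          exact h2 (hroot_anc _ i rfl)
        have := hrad_le i hi
        have := hrad_le j hj
        linarith

end

/-- Every finite connected simple graph on at least two vertices admits a SIG-metric that is
isometrically embeddable into some finite-dimensional `ℓ_1` space. -/
theorem result {V : Type*} [Fintype V] [Nontrivial V] (G : SimpleGraph V) (hG : G.Connected) :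
    ∃ d : V → V → ℝ, IsSIGMetric G d ∧
      ∃ m : ℕ, 1 ≤ m ∧ ∃ X : V → (Fin m → ℝ), ∀ i j, ∑ k, |X i k - X j k| = d i j := by
  classical
  obtain ⟨T⟩ := exists_treeData G hG
  refine ⟨T.d, isSIGMetric T, Fintype.card (V ⊕ (V × V)), ?_, ?_⟩
  · exact Fintype.card_pos_iff.mpr ⟨Sum.inl T.root⟩
  · refine ⟨fun i k => T.X i ((Fintype.equivFin (V ⊕ (V × V))).symm k), ?_⟩
    intro i j
    rw [← T.sum_abs i j]
    exact Equiv.sum_comp (Fintype.equivFin (V ⊕ (V × V))).symm (fun c => |T.X i c - T.X j c|)

end Pool.Agent.Results.MP_d14146_co.Main
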